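import Pool.Agent.helper82.SW.SpecW

/-!
# sp:WMC, the crossing of the model is the crossing of the Cardy part
-/

namespace Pool.Agent.helper82.SW

open MeasureTheory Filter Topology TopologicalSpace

theorem MC_mem (hAD : AD_stmt) (n : ℕ) (ω : SpectralPivotal.Config n) (x : ℤ × ℤ) :
    x ∈ (↑(SC.Usq n \ white n ω) : Set (ℤ × ℤ)) ↔
      ∃ hx : x ∈ SpectralPivotal.sites n, ω ⟨x, hx⟩ = 1 := by
  classical
  obtain ⟨-, h2, -⟩ := hAD
  rw [Finset.mem_coe, Finset.mem_sdiff, ← h2 n x]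
  have h3 : x ∈ white n ω ↔ ∃ hx : x ∈ SpectralPivotal.sites n, ω ⟨x, hx⟩ = -1 := by
    unfold white
    constructor
    · intro h
      obtain ⟨y, hy, rfl⟩ := Finset.mem_image.1 h
      exact ⟨y.2, (Finset.mem_filter.1 hy).2⟩
    · rintro ⟨hx, h⟩
      exact Finset.mem_image.2 ⟨⟨x, hx⟩, Finset.mem_filter.2 ⟨Finset.mem_univ _, h⟩, rfl⟩
  rw [h3]
  constructor
  · rintro ⟨hx, h⟩
    refine ⟨hx, ?_⟩
    rcases Int.units_eq_one_or (ω ⟨x, hx⟩) with h4 | h4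
    · exact h4
    · exact absurd ⟨hx, h4⟩ h
  · rintro ⟨hx, h⟩
    refine ⟨hx, ?_⟩
    rintro ⟨_, h4⟩
    rw [h] at h4
    exact absurd h4 (by decide)

theorem MC (hAD : AD_stmt) : MC_stmt := by
  intro n ω
  have hm := MC_mem hAD n ω
  obtain ⟨h1, h2, h3, h4, -⟩ := hAD
  unfold SpectralPivotal.Crossing SC.LRb SC.Con
  constructor
  · rintro ⟨u, v, hu, hv, hω, hp⟩
    have huU := (h2 n u).1 u.2
    have hvU := (h2 n v).1 v.2
    refine ⟨u, v, ((h4 n u huU).1).1 hu, ((h4 n v hvU).2).1 hv, (hm u).2 ⟨u.2, hω⟩, ?_⟩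
    refine Relation.ReflTransGen.lift (Subtype.val) ?_ _ _ hp
    rintro a b ⟨hab, hb⟩
    exact ⟨(h1 a b).1 hab, (hm b).2 ⟨b.2, hb⟩⟩
  · rintro ⟨u, v, hu, hv, huW, hp⟩
    obtain ⟨hus, hω⟩ := (hm u).1 huW
    have key : ∀ z, Relation.ReflTransGen
        (fun a b => SC.TAdj a b ∧ b ∈ (↑(SC.Usq n \ white n ω) : Set (ℤ × ℤ))) u z →
        ∃ hz : z ∈ SpectralPivotal.sites n, Relation.ReflTransGen
          (fun a b : SpectralPivotal.sites n => SpectralPivotal.Adj a b ∧ ω b = 1)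
            ⟨u, hus⟩ ⟨z, hz⟩ := by
      intro z hz
      induction hz with
      | refl => exact ⟨hus, Relation.ReflTransGen.refl⟩
      | tail _ hbc ih =>
        obtain ⟨hb, ih⟩ := ih
        obtain ⟨hc, hωc⟩ := (hm _).1 hbc.2
        exact ⟨hc, ih.tail ⟨(h1 _ _).2 hbc.1, hωc⟩⟩
    obtain ⟨hvs, hp'⟩ := key v hp
    exact ⟨⟨u, hus⟩, ⟨v, hvs⟩, ((h4 n u ((h2 n u).1 hus)).1).2 hu,
      ((h4 n v ((h2 n v).1 hvs)).2).2 hv, hω, hp'⟩

end Pool.Agent.helper82.SW
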